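import Pool.Agent.helper79.Tw.Defs
import Pool.Agent.helper78.Tw.A

set_option autoImplicit false

/-!
# Module TW-I: the 2-isogeny as a homomorphism of Mathlib's groups of points, with heights
-/

namespace H79.Tw

open WeierstrassCurve WeierstrassCurve.Affine H48.CN Height

variable {A B A' B' N : ℚ} {hE : B * (A ^ 2 - 4 * B) ≠ 0} {hN : N ≠ 0}

lemma mk_congr {x y x' y' : ℚ} {e : N * y ^ 2 = x * (x ^ 2 + A * x + B)}
    {e' : N * y' ^ 2 = x' * (x' ^ 2 + A * x' + B)} (h1 : x = x') (h2 : y = y') :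
    mk hE hN x y e = mk hE hN x' y' e' := mk_inj.2 ⟨h1, h2⟩

/-- Three points on a line (with the right multiplicities) have sum zero. -/
theorem add_of_line {x₁ y₁ x₂ y₂ x₃ y₃ l m : ℚ}
    (e₁ : N * y₁ ^ 2 = x₁ * (x₁ ^ 2 + A * x₁ + B))
    (e₂ : N * y₂ ^ 2 = x₂ * (x₂ ^ 2 + A * x₂ + B))
    (e₃ : N * y₃ ^ 2 = x₃ * (x₃ ^ 2 + A * x₃ + B))
    (l₁ : y₁ = l * x₁ + m) (l₂ : y₂ = l * x₂ + m) (l₃ : -y₃ = l * x₃ + m)
    (s₁ : x₁ + x₂ + x₃ = N * l ^ 2 - A)
    (s₂ : x₁ * x₂ + x₁ * x₃ + x₂ * x₃ = B - 2 * N * l * m) :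
    mk hE hN x₁ y₁ e₁ + mk hE hN x₂ y₂ e₂ = mk hE hN x₃ y₃ e₃ := by
  have key : N * l * (y₁ + y₂) = x₁ ^ 2 + x₁ * x₂ + x₂ ^ 2 + A * (x₁ + x₂) + B := by
    rw [l₁, l₂]
    linear_combination s₂ - (x₁ + x₂) * s₁
  have hne : ¬(x₁ = x₂ ∧ y₁ = -y₂) := by
    rintro ⟨rfl, h⟩
    have hy : y₁ = 0 := by
      have : y₁ = y₂ := by rw [l₁, l₂]
      linarith
    have hy2 : y₂ = 0 := by linarith
    rw [hy, hy2] at key
    rw [hy] at e₁
    have h3 : 3 * x₁ ^ 2 + 2 * A * x₁ + B = 0 := by linear_combination -key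
    have h4 : x₁ * (x₁ ^ 2 + A * x₁ + B) = 0 := by rw [← e₁]; ring
    apply hE
    rcases mul_eq_zero.1 h4 with h | h
    · rw [h] at h3
      have : B = 0 := by linear_combination h3
      rw [this]; ring
    · have h5 : 2 * x₁ + A = 0 ∨ x₁ = 0 := by
        have : x₁ * (2 * x₁ + A) = 0 := by linear_combination h3 - h
        rcases mul_eq_zero.1 this with h | h
        · exact Or.inr h
        · exact Or.inl h
      rcases h5 with h5 | h5
      · have : A ^ 2 - 4 * B = 0 := by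
          linear_combination (-4 : ℚ) * h + (2 * x₁ + A) * h5
        rw [this]; ring
      · rw [h5] at h3
        have : B = 0 := by linear_combination h3
        rw [this]; ring
  obtain ⟨l', X, Y, e, hs, r1, r2, r3, r4⟩ := mk_add (hE := hE) (hN := hN) e₁ e₂ hne
  have hl : l' = l := by
    by_cases hx : x₁ = x₂
    · have hy : y₁ + y₂ ≠ 0 := fun h => hne ⟨hx, by linarith⟩
      apply mul_left_cancel₀ (mul_ne_zero hN hy)
      linear_combination r2 - key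
    · apply mul_right_cancel₀ (sub_ne_zero.2 hx)
      rw [r1, l₁, l₂]; ring
  rw [hs]
  apply mk_congr
  · rw [r3, hl]; linear_combination -s₁
  · rw [r4, r3, hl]
    linear_combination l₃ - l₁ + l * (s₁)

lemma eq_T (y : ℚ) (e : N * y ^ 2 = 0 * (0 ^ 2 + A * 0 + B)) (hN : N ≠ 0) : y = 0 := by
  have h : N * y ^ 2 = 0 := by rw [e]; ring
  rcases mul_eq_zero.1 h with h | h
  · exact absurd h hN
  · exact (pow_eq_zero_iff two_ne_zero).1 h

/-- the equation of the image point -/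
lemma iso_eqn (hA : A' = -A / 2) (hB : B' = (A ^ 2 - 4 * B) / 16) {x y : ℚ} (hx : x ≠ 0)
    (e : N * y ^ 2 = x * (x ^ 2 + A * x + B)) :
    N * (y * (x ^ 2 - B) / (8 * x ^ 2)) ^ 2 = ((x ^ 2 + A * x + B) / (4 * x)) *
      (((x ^ 2 + A * x + B) / (4 * x)) ^ 2 + A' * ((x ^ 2 + A * x + B) / (4 * x)) + B') := by
  have h1 : N * (y * (x ^ 2 - B) / (8 * x ^ 2)) ^ 2 =
      (N * y ^ 2) * ((x ^ 2 - B) / (8 * x ^ 2)) ^ 2 := by ring
  rw [h1, e, hA, hB]
  field_simp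
  ring

open Classical in
/-- the isogeny as a function -/
noncomputable def isoFun (hE : B * (A ^ 2 - 4 * B) ≠ 0) (hN : N ≠ 0)
    (hA : A' = -A / 2) (hB : B' = (A ^ 2 - 4 * B) / 16)
    (hE' : B' * (A' ^ 2 - 4 * B') ≠ 0) (P : (TW A B N).Point) : (TW A' B' N).Point :=
  if h : ∃ (x y : ℚ) (e : N * y ^ 2 = x * (x ^ 2 + A * x + B)), x ≠ 0 ∧ P = mk hE hN x y e then
    mk hE' hN _ _ (iso_eqn hA hB h.choose_spec.choose_spec.choose_spec.1
      h.choose_spec.choose_spec.choose)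
  else 0

variable {hA : A' = -A / 2} {hB : B' = (A ^ 2 - 4 * B) / 16} {hE' : B' * (A' ^ 2 - 4 * B') ≠ 0}

lemma isoFun_mk {x y : ℚ} (e : N * y ^ 2 = x * (x ^ 2 + A * x + B)) (hx : x ≠ 0) :
    isoFun hE hN hA hB hE' (mk hE hN x y e) =
      mk hE' hN ((x ^ 2 + A * x + B) / (4 * x)) (y * (x ^ 2 - B) / (8 * x ^ 2))
        (iso_eqn hA hB hx e) := by
  have h : ∃ (x' y' : ℚ) (e' : N * y' ^ 2 = x' * (x' ^ 2 + A * x' + B)), x' ≠ 0 ∧
      mk hE hN x y e = mk hE hN x' y' e' := ⟨x, y, e, hx, rfl⟩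
  unfold isoFun
  rw [dif_pos h]
  have h2 := h.choose_spec.choose_spec.choose_spec.2
  obtain ⟨h3, h4⟩ := mk_inj.1 h2
  apply mk_congr
  · exact congrArg (fun a => (a ^ 2 + A * a + B) / (4 * a)) h3.symm
  · exact congrArg₂ (fun a b => b * (a ^ 2 - B) / (8 * a ^ 2)) h3.symm h4.symm

lemma isoFun_zero : isoFun hE hN hA hB hE' 0 = 0 := by
  unfold isoFun
  rw [dif_neg]
  rintro ⟨x, y, e, -, h⟩
  exact mk_ne_zero h.symm

lemma isoFun_T {y : ℚ} (e : N * y ^ 2 = 0 * (0 ^ 2 + A * 0 + B)) :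
    isoFun hE hN hA hB hE' (mk hE hN 0 y e) = 0 := by
  unfold isoFun
  rw [dif_neg]
  rintro ⟨x, y, e, hx, h⟩
  exact hx (mk_inj.1 h).1.symm

lemma isoFun_neg (P : (TW A B N).Point) :
    isoFun hE hN hA hB hE' (-P) = -isoFun hE hN hA hB hE' P := by
  rcases exists_mk hE hN P with rfl | ⟨x, y, e, rfl⟩
  · rw [neg_zero, isoFun_zero, neg_zero]
  · by_cases hx : x = 0
    · subst hx
      rw [neg_mk, isoFun_T, isoFun_T, neg_zero]
    · rw [neg_mk, isoFun_mk _ hx, isoFun_mk _ hx, neg_mk]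
      apply mk_congr rfl
      ring

/-- the point of order two -/
lemma T_eqn (N A B : ℚ) : N * (0 : ℚ) ^ 2 = 0 * (0 ^ 2 + A * 0 + B) := by ring

lemma isoFun_add_T (P : (TW A B N).Point) :
    isoFun hE hN hA hB hE' (P + mk hE hN 0 0 (T_eqn N A B)) = isoFun hE hN hA hB hE' P := by
  rcases exists_mk hE hN P with rfl | ⟨x, y, e, rfl⟩
  · rw [zero_add, isoFun_T, isoFun_zero]
  · by_cases hx : x = 0
    · subst hx
      have hy : y = 0 := eq_T y e hN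
      subst hy
      rw [mk_add_neg e (T_eqn N A B) (by ring), isoFun_zero, isoFun_T]
    · have hB0 : B ≠ 0 := left_ne_zero_of_mul hE
      have e3 : N * (-(B * y / x ^ 2)) ^ 2 = (B / x) * ((B / x) ^ 2 + A * (B / x) + B) := by
        have h1 : N * (-(B * y / x ^ 2)) ^ 2 = (N * y ^ 2) * (B / x ^ 2) ^ 2 := by ring
        rw [h1, e]
        field_simp
        ring
      have hNy : N * (y / x) ^ 2 = (x ^ 2 + A * x + B) / x := by
        have h1 : N * (y / x) ^ 2 = (N * y ^ 2) / x ^ 2 := by ring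
        rw [h1, e]
        field_simp
      have h := add_of_line (hE := hE) (hN := hN) (l := y / x) (m := 0) e (T_eqn N A B) e3
        (by field_simp; ring) (by ring) (by field_simp; ring)
        (by rw [hNy]; field_simp; ring) (by field_simp; ring)
      have hBx : B / x ≠ 0 := div_ne_zero hB0 hx
      rw [h, isoFun_mk _ hx, isoFun_mk _ hBx]
      apply mk_congr
      · field_simp
        ring
      · field_simp
        ring

lemma isoFun_add (P Q : (TW A B N).Point) :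
    isoFun hE hN hA hB hE' (P + Q) =
      isoFun hE hN hA hB hE' P + isoFun hE hN hA hB hE' Q := by
  rcases exists_mk hE hN P with rfl | ⟨x₁, y₁, e₁, rfl⟩
  · rw [zero_add, isoFun_zero, zero_add]
  rcases exists_mk hE hN Q with rfl | ⟨x₂, y₂, e₂, rfl⟩
  · rw [add_zero, isoFun_zero, add_zero]
  by_cases hx2 : x₂ = 0
  · subst hx2
    have hy : y₂ = 0 := eq_T y₂ e₂ hN
    subst hy
    rw [isoFun_add_T, isoFun_T, add_zero]
  by_cases hx1 : x₁ = 0
  · subst hx1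
    have hy : y₁ = 0 := eq_T y₁ e₁ hN
    subst hy
    rw [add_comm, isoFun_add_T, isoFun_T, zero_add]
  by_cases hopp : x₁ = x₂ ∧ y₁ = -y₂
  · obtain ⟨rfl, rfl⟩ := hopp
    have h1 : mk hE hN x₁ (-y₂) e₁ = -mk hE hN x₁ y₂ e₂ := by
      rw [neg_mk]
    rw [h1, isoFun_neg, neg_add_cancel, neg_add_cancel, isoFun_zero]
  obtain ⟨l, x₃, y₃, e₃, hs, r1, r2, r3, r4⟩ := mk_add (hE := hE) (hN := hN) e₁ e₂ hopp
  by_cases hx3 : x₃ = 0
  · subst hx3
    have hy : y₃ = 0 := eq_T y₃ e₃ hN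
    subst hy
    rw [hs, isoFun_T]
    have h1 : mk hE hN x₂ y₂ e₂ = -mk hE hN x₁ y₁ e₁ + mk hE hN 0 0 (T_eqn N A B) := by
      rw [← hs]; abel
    rw [h1, isoFun_add_T, isoFun_neg, add_neg_cancel]
  -- the generic case
  obtain ⟨m, hm⟩ : ∃ m, m = y₁ - l * x₁ := ⟨_, rfl⟩
  have l₁ : y₁ = l * x₁ + m := by rw [hm]; ring
  have l₂ : y₂ = l * x₂ + m := by rw [hm]; linear_combination r1
  have l₃ : -y₃ = l * x₃ + m := by rw [r4, hm]; ring
  have s₁ : A = N * l ^ 2 - (x₁ + x₂ + x₃) := by rw [r3]; ring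
  have s₂ : B = x₁ * x₂ + x₁ * x₃ + x₂ * x₃ + 2 * N * l * m := by
    rw [l₁, l₂] at r2
    linear_combination -(x₁ + x₂) * s₁ - r2
  have s₃ : N * m ^ 2 = x₁ * x₂ * x₃ := by
    rw [l₁] at e₁
    linear_combination e₁ + x₁ ^ 2 * s₁ + x₁ * s₂
  have hm0 : m ≠ 0 := by
    rintro rfl
    apply mul_ne_zero (mul_ne_zero hx1 hx2) hx3
    rw [← s₃]; ring
  have s₄ : N = x₁ * x₂ * x₃ / m ^ 2 := by
    rw [eq_div_iff (pow_ne_zero 2 hm0), s₃]
  rw [hs, isoFun_mk _ hx1, isoFun_mk _ hx2, isoFun_mk _ hx3]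
  symm
  have hN' : x₁ * x₂ * x₃ ≠ 0 := mul_ne_zero (mul_ne_zero hx1 hx2) hx3
  refine add_of_line (l := l / 2 - B / (2 * N * m)) (m := (m - A * l + B * l ^ 2 / m) / 8)
    _ _ _ ?_ ?_ ?_ ?_ ?_
  · rw [l₁, s₂, s₁, s₄]
    field_simp
    ring
  · rw [l₂, s₂, s₁, s₄]
    field_simp
    ring
  · have l₃' : y₃ = -(l * x₃ + m) := by rw [← l₃]; ring
    rw [l₃', s₂, s₁, s₄]
    field_simp
    ring
  · rw [hA, s₂, s₁, s₄]
    field_simp
    ring
  · rw [hB, s₂, s₁, s₄]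
    field_simp
    ring


/-- Module I -/
theorem exists_iso {A B A' B' : ℚ} (hA : A' = -A / 2) (hB : B' = (A ^ 2 - 4 * B) / 16)
    (hE : B * (A ^ 2 - 4 * B) ≠ 0) (hE' : B' * (A' ^ 2 - 4 * B') ≠ 0) :
    ∃ C : ℝ, ∀ (N : ℚ) (hN : N ≠ 0), ∃ φ : (TW A B N).Point →+ (TW A' B' N).Point,
      (∀ P, |hh N (φ P) - 2 * hh N P| ≤ C) ∧
      ∀ (x y : ℚ) (e : N * y ^ 2 = x * (x ^ 2 + A * x + B)) (_ : x ≠ 0)
        (e' : N * (y * (x ^ 2 - B) / (8 * x ^ 2)) ^ 2 = ((x ^ 2 + A * x + B) / (4 * x)) *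
          (((x ^ 2 + A * x + B) / (4 * x)) ^ 2 + A' * ((x ^ 2 + A * x + B) / (4 * x)) + B')),
        φ (mk hE hN x y e) =
          mk hE' hN ((x ^ 2 + A * x + B) / (4 * x)) (y * (x ^ 2 - B) / (8 * x ^ 2)) e' := by
  have hB0 : B ≠ 0 := left_ne_zero_of_mul hE
  obtain ⟨C, hC⟩ := H78.Tw.height_quad (a := 1) (b := A) (c := B) (d := 0) (e := 4) (f := 0)
    (by intro h; apply hB0; linear_combination h / 16)
  have hC0 : 0 ≤ C := (abs_nonneg _).trans (hC 1 (by norm_num))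
  refine ⟨C, fun N hN => ⟨AddMonoidHom.mk' (isoFun hE hN hA hB hE') isoFun_add, ?_, ?_⟩⟩
  · intro P
    rw [AddMonoidHom.mk'_apply]
    rcases exists_mk hE hN P with rfl | ⟨x, y, e, rfl⟩
    · rw [isoFun_zero, hh_zero, hh_zero]
      simpa using hC0
    · by_cases hx : x = 0
      · subst hx
        rw [isoFun_T, hh_zero, hh_mk, logHeight₁_zero]
        simpa using hC0
      · rw [isoFun_mk e hx, hh_mk, hh_mk]
        have h := hC x (by simpa using hx)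
        have e1 : (1 * x ^ 2 + A * x + B) / (0 * x ^ 2 + 4 * x + 0) =
            (x ^ 2 + A * x + B) / (4 * x) := by
          rw [one_mul, zero_mul, zero_add, add_zero]
        rwa [e1] at h
  · intro x y e hx e'
    rw [AddMonoidHom.mk'_apply, isoFun_mk e hx]

end H79.Tw
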